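import Pool.Agent.helper55.FkGraphs
import Pool.Agent.helper55.FkSmall

set_option autoImplicit false

open Pool.Agent.helper55.Fk

namespace Pool.Agent.Results.MP_551fda_co.UpperBound

/-- For every `k ≥ 4` the minimum `f(k)` is attained and
`f(k) ≤ k + min(3, ⌊(k-4)/5⌋)`, except that for `k = 5, 7` the bound is `k + 1`. In particular
`f(k) ≤ k + 3` for all `k ≥ 4`, and `f(k) ≤ k` for `k = 4, 6, 8`. -/
theorem result (k : ℕ) (hk : 4 ≤ k) :
    IsLeast (degSet k) (f k) ∧
      f k ≤ k + min 3 ((k - 4) / 5) + (if k = 5 ∨ k = 7 then 1 else 0) := by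
  by_cases h8 : 8 ≤ k
  · obtain ⟨h1, h2⟩ := f_le_main h8
    exact ⟨h1, by omega⟩
  · have h : k = 4 ∨ k = 5 ∨ k = 6 ∨ k = 7 := by omega
    rcases h with rfl | rfl | rfl | rfl
    · exact f4
    · exact f5
    · exact f6
    · exact f7

end Pool.Agent.Results.MP_551fda_co.UpperBound
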